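import Pool.Agent.V11165.LA.Main

set_option autoImplicit false

namespace Pool.Agent.Results.MP_fbf57d_al.ClosedLocAut

/-- `φ` is an automorphism of the algebra `(A, m)`, where `m` is the bilinear product. (`A` is
finite-dimensional, so every linear map is continuous.) -/
def IsAut {𝕜 : Type*} [RCLike 𝕜] {A : Type*} [NormedAddCommGroup A] [NormedSpace 𝕜 A]
    (m : A →ₗ[𝕜] A →ₗ[𝕜] A) (φ : A →L[𝕜] A) : Prop :=
  Function.Bijective φ ∧ ∀ a b, φ (m a b) = m (φ a) (φ b)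

/-- `φ` is a local automorphism of `(A, m)`. -/
def IsLocAut {𝕜 : Type*} [RCLike 𝕜] {A : Type*} [NormedAddCommGroup A] [NormedSpace 𝕜 A]
    (m : A →ₗ[𝕜] A →ₗ[𝕜] A) (φ : A →L[𝕜] A) : Prop :=
  ∀ x : A, ∃ ψ : A →L[𝕜] A, IsAut m ψ ∧ φ x = ψ x

/-- For every finite-dimensional algebra `(A, m)` over `ℝ` or `ℂ` the local automorphisms form a
closed subgroup `H` of the topological group `GL(A) = (A →L[𝕜] A)ˣ`: every local automorphism is
invertible, the set of local automorphisms is a subgroup, and it is closed. -/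
theorem result {𝕜 : Type*} [RCLike 𝕜] {A : Type*} [NormedAddCommGroup A] [NormedSpace 𝕜 A]
    [FiniteDimensional 𝕜 A] (m : A →ₗ[𝕜] A →ₗ[𝕜] A) :
    ∃ H : Subgroup (A →L[𝕜] A)ˣ,
      (∀ g : (A →L[𝕜] A)ˣ, g ∈ H ↔ IsLocAut m (g : A →L[𝕜] A)) ∧
      (∀ φ : A →L[𝕜] A, IsLocAut m φ → ∃ g ∈ H, (g : A →L[𝕜] A) = φ) ∧
      IsClosed (H : Set (A →L[𝕜] A)ˣ) := by
  refine ⟨Pool.Agent.V11165.LA.locAutGroup m, fun g => Iff.rfl, fun φ hφ => ?_,
    Pool.Agent.V11165.LA.isClosed_locAut m⟩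
  obtain ⟨g, hg⟩ := Pool.Agent.V11165.LA.IsLocAut.exists_unit (m := m) (φ := φ) hφ
  refine ⟨g, ?_, hg⟩
  show Pool.Agent.V11165.LA.IsLocAut m (g : A →L[𝕜] A)
  rw [hg]
  exact hφ

end Pool.Agent.Results.MP_fbf57d_al.ClosedLocAut
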